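import Pool.Agent.Helper38.EK.Rand

/-!
# A small random set contains one of many disjoint small sets
-/

set_option autoImplicit false

namespace Pool.Agent.Helper6.EA

open Pool.Agent.Helper38.EK (zer sum_zer)

variable {V : Type} [Fintype V] [DecidableEq V]

/-- the functions which do not vanish on any of the first `m` sets -/
def av (p : ℕ) {l : ℕ} (e : Fin l → Finset V) (m : ℕ) : Finset (V → Fin (p + 1)) :=
  Finset.univ.filter (fun f => ∀ i : Fin l, (i : ℕ) < m → ∃ z ∈ e i, f z ≠ 0)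

theorem mem_av {p l : ℕ} {e : Fin l → Finset V} {m : ℕ} {f : V → Fin (p + 1)} :
    f ∈ av p e m ↔ ∀ i : Fin l, (i : ℕ) < m → ∃ z ∈ e i, f z ≠ 0 := by
  unfold av
  simp

theorem av_step {p l r : ℕ} {e : Fin l → Finset V} (hd : ∀ i j, i ≠ j → Disjoint (e i) (e j))
    (hr : ∀ i, (e i).card ≤ r) {m : ℕ} (hm : m < l) :
    (p + 1) ^ r * (av p e (m + 1)).card ≤ ((p + 1) ^ r - 1) * (av p e m).card := by
  have hsub : av p e (m + 1) ⊆ av p e m := by
    intro f hf
    rw [mem_av] at hf ⊢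
    exact fun i hi => hf i (by omega)
  have h1 : (av p e m).card ≤ (p + 1) ^ r * (av p e m \ av p e (m + 1)).card := by
    refine Finset.card_le_mul_card_image_of_maps_to
      (f := fun (f : V → Fin (p + 1)) (z : V) => if z ∈ e ⟨m, hm⟩ then 0 else f z) ?_ _ ?_
    · intro f hf
      rw [Finset.mem_sdiff, mem_av, mem_av]
      rw [mem_av] at hf
      constructor
      · intro i hi
        obtain ⟨z, hz, hz2⟩ := hf i hi
        refine ⟨z, hz, ?_⟩
        have h2 : z ∉ e ⟨m, hm⟩ := by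
          refine Finset.disjoint_left.1 (hd i ⟨m, hm⟩ ?_) hz
          intro h
          rw [h] at hi
          exact lt_irrefl _ hi
        rw [if_neg h2]
        exact hz2
      · intro h
        obtain ⟨z, hz, hz2⟩ := h ⟨m, hm⟩ (Nat.lt_succ_self m)
        rw [if_pos hz] at hz2
        exact hz2 rfl
    · intro g hg
      have h2 : ((av p e m).filter (fun f =>
          (fun (z : V) => if z ∈ e ⟨m, hm⟩ then (0 : Fin (p + 1)) else f z) = g)).card ≤
          (Finset.univ : Finset ({z // z ∈ e ⟨m, hm⟩} → Fin (p + 1))).card := by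
        refine Finset.card_le_card_of_injOn (fun f z => f z.1) (fun _ _ => Finset.mem_coe.2 (Finset.mem_univ _)) ?_
        intro f hf f' hf' h
        have h3 := (Finset.mem_filter.1 (Finset.mem_coe.1 hf)).2
        have h4 := (Finset.mem_filter.1 (Finset.mem_coe.1 hf')).2
        funext z
        by_cases hz : z ∈ e ⟨m, hm⟩
        · exact congrFun h ⟨z, hz⟩
        · have h5 := congrFun (h3.trans h4.symm) z
          simp only [if_neg hz] at h5
          exact h5
      refine h2.trans ?_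
      rw [Finset.card_univ, Fintype.card_fun, Fintype.card_fin, Fintype.card_coe]
      exact Nat.pow_le_pow_right (Nat.succ_pos p) (hr _)
  rw [Finset.card_sdiff_of_subset hsub] at h1
  have h2 := Finset.card_le_card hsub
  obtain ⟨a, ha⟩ : ∃ a, (av p e m).card = (av p e (m + 1)).card + a := ⟨_, (Nat.add_sub_of_le h2).symm⟩
  have h3 : 1 ≤ (p + 1) ^ r := Nat.one_le_pow _ _ (Nat.succ_pos p)
  obtain ⟨Q, hQ⟩ : ∃ Q, (p + 1) ^ r = Q + 1 := ⟨(p + 1) ^ r - 1, by omega⟩
  rw [hQ, ha, Nat.add_sub_cancel_left] at h1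
  rw [hQ, ha, Nat.add_sub_cancel]
  nlinarith

theorem av_card {p l r : ℕ} {e : Fin l → Finset V} (hd : ∀ i j, i ≠ j → Disjoint (e i) (e j))
    (hr : ∀ i, (e i).card ≤ r) (m : ℕ) (hm : m ≤ l) :
    ((p + 1) ^ r) ^ m * (av p e m).card ≤ ((p + 1) ^ r - 1) ^ m * (p + 1) ^ Fintype.card V := by
  induction m with
  | zero =>
    rw [pow_zero, pow_zero, one_mul, one_mul]
    refine (Finset.card_le_univ _).trans ?_
    rw [Fintype.card_fun, Fintype.card_fin]
  | succ m ih =>
    have h1 := ih (by omega)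
    have h2 := av_step (p := p) hd hr (m := m) (by omega)
    calc ((p + 1) ^ r) ^ (m + 1) * (av p e (m + 1)).card
        = ((p + 1) ^ r) ^ m * ((p + 1) ^ r * (av p e (m + 1)).card) := by rw [pow_succ]; ring
      _ ≤ ((p + 1) ^ r) ^ m * (((p + 1) ^ r - 1) * (av p e m).card) := Nat.mul_le_mul_left _ h2
      _ = ((p + 1) ^ r - 1) * (((p + 1) ^ r) ^ m * (av p e m).card) := by ring
      _ ≤ ((p + 1) ^ r - 1) * (((p + 1) ^ r - 1) ^ m * (p + 1) ^ Fintype.card V) := Nat.mul_le_mul_left _ h1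
      _ = _ := by rw [pow_succ]; ring

/-- EA1 -/
theorem hitS {V : Type} [Fintype V] [DecidableEq V] {q r l B : ℕ} (hq : 1 ≤ q)
    (F : V → Finset (Fin l → Finset V)) (hB : ∀ x, (F x).card ≤ B)
    (hd : ∀ x, ∀ e ∈ F x, ∀ i j, i ≠ j → Disjoint (e i) (e j)) (hr : ∀ x, ∀ e ∈ F x, ∀ i, (e i).card ≤ r)
    (hnum : B * q * (q ^ r - 1) ^ l ≤ (q ^ r) ^ l) :
    ∃ P : Finset V, q * P.card ≤ 2 * Fintype.card V ∧ ∀ x ∉ P, ∀ e ∈ F x, ∃ i, e i ⊆ P := by
  classical
  obtain ⟨p, rfl⟩ : ∃ p, q = p + 1 := ⟨q - 1, by omega⟩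
  obtain ⟨n, hn⟩ : ∃ n, n = Fintype.card V := ⟨_, rfl⟩
  rw [← hn]
  -- the exceptional points
  let bad : (V → Fin (p + 1)) → Finset V := fun h =>
    Finset.univ.filter (fun x => ∃ e ∈ F x, h ∈ av p e l)
  have h1 : ∑ h : V → Fin (p + 1), (bad h).card ≤ n * (p + 1) ^ (n - 1) := by
    have e1 : ∑ h : V → Fin (p + 1), (bad h).card =
        ∑ x : V, (Finset.univ.filter (fun h : V → Fin (p + 1) => ∃ e ∈ F x, h ∈ av p e l)).card := by
      simp only [bad, Finset.card_filter]
      rw [Finset.sum_comm]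
    rw [e1]
    have e2 : ∀ x : V, (Finset.univ.filter (fun h : V → Fin (p + 1) => ∃ e ∈ F x, h ∈ av p e l)).card ≤
        (p + 1) ^ (n - 1) := by
      intro x
      have hn1 : 1 ≤ n := by
        rw [hn]
        exact Fintype.card_pos_iff.2 ⟨x⟩
      have e3 : (Finset.univ.filter (fun h : V → Fin (p + 1) => ∃ e ∈ F x, h ∈ av p e l)) ⊆
          (F x).biUnion (fun e => av p e l) := by
        intro h hh
        obtain ⟨D, hD, hD2⟩ := (Finset.mem_filter.1 hh).2
        exact Finset.mem_biUnion.2 ⟨D, hD, hD2⟩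
      have hpos : 0 < ((p + 1) ^ r) ^ l := by positivity
      refine Nat.le_of_mul_le_mul_right (c := (p + 1) * ((p + 1) ^ r) ^ l) ?_ (by positivity)
      have e4 : ((p + 1) ^ r) ^ l * ((F x).biUnion (fun e => av p e l)).card ≤
          B * (((p + 1) ^ r - 1) ^ l * (p + 1) ^ n) := by
        calc ((p + 1) ^ r) ^ l * ((F x).biUnion (fun e => av p e l)).card
            ≤ ((p + 1) ^ r) ^ l * ∑ e ∈ F x, (av p e l).card := Nat.mul_le_mul_left _ Finset.card_biUnion_le
          _ = ∑ e ∈ F x, ((p + 1) ^ r) ^ l * (av p e l).card := Finset.mul_sum _ _ _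
          _ ≤ ∑ e ∈ F x, ((p + 1) ^ r - 1) ^ l * (p + 1) ^ n := by
              refine Finset.sum_le_sum (fun e he => ?_)
              rw [hn]
              exact av_card (hd x e he) (hr x e he) l le_rfl
          _ = (F x).card * (((p + 1) ^ r - 1) ^ l * (p + 1) ^ n) := by rw [Finset.sum_const, smul_eq_mul]
          _ ≤ _ := Nat.mul_le_mul_right _ (hB x)
      calc (Finset.univ.filter (fun h : V → Fin (p + 1) => ∃ e ∈ F x, h ∈ av p e l)).card *
            ((p + 1) * ((p + 1) ^ r) ^ l)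
          ≤ ((F x).biUnion (fun e => av p e l)).card * ((p + 1) * ((p + 1) ^ r) ^ l) :=
            Nat.mul_le_mul_right _ (Finset.card_le_card e3)
        _ = (p + 1) * (((p + 1) ^ r) ^ l * ((F x).biUnion (fun e => av p e l)).card) := by ring
        _ ≤ (p + 1) * (B * (((p + 1) ^ r - 1) ^ l * (p + 1) ^ n)) := Nat.mul_le_mul_left _ e4
        _ = (B * (p + 1) * ((p + 1) ^ r - 1) ^ l) * (p + 1) ^ n := by ring
        _ ≤ ((p + 1) ^ r) ^ l * (p + 1) ^ n := Nat.mul_le_mul_right _ hnum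
        _ = (p + 1) ^ (n - 1) * ((p + 1) * ((p + 1) ^ r) ^ l) := by
            obtain ⟨m, hm⟩ : ∃ m, n = m + 1 := ⟨n - 1, by omega⟩
            rw [hm, Nat.add_sub_cancel, pow_succ (p + 1) m]
            ring
    refine (Finset.sum_le_sum (fun x _ => e2 x)).trans ?_
    rw [Finset.sum_const, Finset.card_univ, smul_eq_mul, ← hn]
  have h2 := sum_zer (M := V) p
  rw [← hn] at h2
  -- a good choice
  have h3 : ∃ h : V → Fin (p + 1), (p + 1) * ((zer h).card + (bad h).card) ≤ 2 * n := by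
    by_contra hcon
    push Not at hcon
    have e1 : ∑ h : V → Fin (p + 1), (2 * n) < ∑ h : V → Fin (p + 1), (p + 1) * ((zer h).card + (bad h).card) :=
      Finset.sum_lt_sum_of_nonempty Finset.univ_nonempty (fun h _ => hcon h)
    have e0 : ∑ h : V → Fin (p + 1), (p + 1) * ((zer h).card + (bad h).card) =
        (p + 1) * (n * (p + 1) ^ (n - 1) + ∑ h : V → Fin (p + 1), (bad h).card) := by
      rw [← Finset.mul_sum, Finset.sum_add_distrib, h2]
    rw [e0, Finset.sum_const, Finset.card_univ, Fintype.card_fun, Fintype.card_fin, smul_eq_mul, ← hn] at e1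
    rcases Nat.eq_zero_or_pos n with h0 | h0
    · rw [h0] at e1 h1
      simp only [Nat.zero_mul, Nat.mul_zero, pow_zero, zero_add] at e1 h1
      have : (p + 1) * ∑ h : V → Fin (p + 1), (bad h).card = 0 := by
        rw [Nat.le_zero.1 h1, Nat.mul_zero]
      omega
    · have e2 : (p + 1) * (n * (p + 1) ^ (n - 1) + ∑ h : V → Fin (p + 1), (bad h).card) ≤
          (p + 1) * (n * (p + 1) ^ (n - 1) + n * (p + 1) ^ (n - 1)) :=
        Nat.mul_le_mul_left _ (Nat.add_le_add_left h1 _)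
      have e3 : (p + 1) * (n * (p + 1) ^ (n - 1) + n * (p + 1) ^ (n - 1)) = (p + 1) ^ n * (2 * n) := by
        obtain ⟨m, hm⟩ : ∃ m, n = m + 1 := ⟨n - 1, by omega⟩
        rw [hm, Nat.add_sub_cancel, pow_succ]
        ring
      omega
  obtain ⟨h, hh⟩ := h3
  refine ⟨zer h ∪ bad h, (Nat.mul_le_mul_left _ (Finset.card_union_le _ _)).trans hh, ?_⟩
  intro x hx e he
  rw [Finset.mem_union, not_or] at hx
  have h4 : h ∉ av p e l := fun hc => hx.2 (Finset.mem_filter.2 ⟨Finset.mem_univ _, e, he, hc⟩)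
  rw [mem_av] at h4
  push Not at h4
  obtain ⟨i, -, hi⟩ := h4
  exact ⟨i, fun z hz => Finset.mem_union_left _ (Finset.mem_filter.2 ⟨Finset.mem_univ _, hi z hz⟩)⟩

end Pool.Agent.Helper6.EA
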