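import Pool.Agent.Helper20.EA.Kernel
import Pool.Agent.Helper31.EA.CovF
import Pool.Agent.Helper6.EA.Layer

/-!
# EA6: one round (over EA3 and EA5 as hypotheses)
-/

set_option autoImplicit false

namespace Pool.Agent.Helper6.EA

open FirstOrder Pool.Agent.Helper20.Spectra Pool.Agent.Helper31.QD Pool.Agent.Helper38.MC
  Pool.Agent.Helper58.QD Pool.Agent.Helper40.MC Pool.Agent.Helper6.MC
open Pool.Agent.Helper12.EK (Gr Ball Cmp)

variable {S : Type} {ar : S → ℕ} {V : Type} [Fintype V]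

/-- the elements of more than `θ` of the sets `N u` -/
noncomputable def bigN {K : Type} (N : K → Finset V) (θ : ℕ) : Finset V :=
  open Classical in Finset.univ.filter (fun z => θ < Nat.card {u : K // z ∈ N u})

lemma mem_bigN {K : Type} {N : K → Finset V} {θ : ℕ} {z : V} :
    z ∈ bigN N θ ↔ θ < Nat.card {u : K // z ∈ N u} := by
  unfold bigN
  simp

lemma card_filter_le_of {α : Type} [Fintype α] (p : α → Prop) [DecidablePred p] (X : Finset α)
    (h : ∀ y, p y → y ∈ X) : (Finset.univ.filter p).card ≤ X.card :=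
  Finset.card_le_card (fun y hy => h y (Finset.mem_filter.1 hy).2)

open Classical in
/-- double counting -/
lemma sum_bigN {K : Type} [Fintype K] (N : K → Finset V) :
    ∑ z : V, Nat.card {u : K // z ∈ N u} = ∑ u : K, (N u).card := by
  have h1 : ∀ z : V, Nat.card {u : K // z ∈ N u} = ∑ u : K, if z ∈ N u then 1 else 0 := by
    intro z
    rw [Nat.card_eq_fintype_card, Fintype.card_subtype, Finset.card_filter]
  rw [Finset.sum_congr rfl (fun z _ => h1 z), Finset.sum_comm]
  refine Finset.sum_congr rfl (fun u _ => ?_)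
  rw [← Finset.card_filter]
  congr 1
  ext z
  simp

/-- the sets of one round are small -/
lemma card_bigN {k B c q : ℕ} (N : (Fin (k + 1) → V) → Finset V) (U : (Fin (k + 1) → V) → Prop)
    (hB : ∀ x, Nat.card {u : Fin (k + 1) → V // U u ∧ u 0 = x} ≤ B) (hN : ∀ u, (N u).card ≤ c)
    (hU : ∀ u, ∀ z ∈ N u, U u) : q * (bigN N (c * B * q)).card ≤ Fintype.card V := by
  classical
  have h1 : ∑ u : Fin (k + 1) → V, (N u).card ≤ Fintype.card V * (B * c) := by
    have e1 : ∑ u : Fin (k + 1) → V, (N u).card =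
        ∑ u ∈ Finset.univ.filter (fun u : Fin (k + 1) → V => U u), (N u).card := by
      rw [Finset.sum_filter]
      refine Finset.sum_congr rfl (fun u _ => ?_)
      by_cases hu : U u
      · rw [if_pos hu]
      · rw [if_neg hu, Finset.card_eq_zero, Finset.eq_empty_iff_forall_notMem]
        exact fun z hz => hu (hU u z hz)
    have e2 : (Finset.univ.filter (fun u : Fin (k + 1) → V => U u)).card ≤ Fintype.card V * B := by
      have e3 := Finset.card_le_mul_card_image_of_maps_to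
        (s := Finset.univ.filter (fun u : Fin (k + 1) → V => U u)) (t := (Finset.univ : Finset V))
        (f := fun u => u 0) (fun _ _ => Finset.mem_univ _) B (by
          intro x _
          refine le_trans (le_of_eq ?_) (hB x)
          rw [Nat.card_eq_fintype_card, Fintype.card_subtype, Finset.filter_filter])
      rw [Finset.card_univ] at e3
      rw [mul_comm]
      exact e3
    rw [e1]
    calc ∑ u ∈ Finset.univ.filter (fun u : Fin (k + 1) → V => U u), (N u).card
        ≤ ∑ u ∈ Finset.univ.filter (fun u : Fin (k + 1) → V => U u), c := Finset.sum_le_sum (fun u _ => hN u)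
      _ = (Finset.univ.filter (fun u : Fin (k + 1) → V => U u)).card * c := by
          rw [Finset.sum_const, smul_eq_mul]
      _ ≤ (Fintype.card V * B) * c := Nat.mul_le_mul_right _ e2
      _ = _ := by ring
  have h2 : (bigN N (c * B * q)).card * (c * B * q + 1) ≤ ∑ z : V, Nat.card {u : Fin (k + 1) → V // z ∈ N u} := by
    calc (bigN N (c * B * q)).card * (c * B * q + 1) = ∑ z ∈ bigN N (c * B * q), (c * B * q + 1) := by
          rw [Finset.sum_const, smul_eq_mul]
      _ ≤ ∑ z ∈ bigN N (c * B * q), Nat.card {u : Fin (k + 1) → V // z ∈ N u} :=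
          Finset.sum_le_sum (fun z hz => mem_bigN.1 hz)
      _ ≤ _ := Finset.sum_le_sum_of_subset (Finset.subset_univ _)
  rw [sum_bigN] at h2
  have h3 := h2.trans h1
  rcases Nat.eq_zero_or_pos (c * B) with h0 | h0
  · have h4 : (bigN N (c * B * q)).card = 0 := by
      have e2 : B * c = 0 := by rw [mul_comm]; exact h0
      rw [e2, Nat.mul_zero] at h3
      rcases Nat.mul_eq_zero.1 (Nat.le_zero.1 h3) with h5 | h5
      · exact h5
      · omega
    rw [h4, Nat.mul_zero]
    exact Nat.zero_le _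
  · refine Nat.le_of_mul_le_mul_right (c := c * B) ?_ h0
    calc q * (bigN N (c * B * q)).card * (c * B) = (bigN N (c * B * q)).card * (c * B * q) := by ring
      _ ≤ (bigN N (c * B * q)).card * (c * B * q + 1) := Nat.mul_le_mul_left _ (Nat.le_succ _)
      _ ≤ Fintype.card V * (B * c) := h3
      _ = _ := by ring

/-- EA5 as a hypothesis -/
def StmtLayer (r : ℕ) : Prop := ∀ (S : Type) (ar : S → ℕ), (∀ s, ar s ≤ r) → ∀ (V : Type) [Fintype V]
    (R : Interp S ar V) (θ : ℕ) (A A' : Finset V), A ⊆ A' → ∀ (U : (Fin (r + 1) → V) → Prop),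
    (∀ h ∈ GA R A, ∀ u, U u → U (h ∘ u)) → ∀ N : (Fin (r + 1) → V) → Finset V,
    (∀ u, U u → ∀ (s : S) (p : Fin (ar s) → V ⊕ Fin (r + 1)), Min R A u s p → ∃ w ∈ out p, w ∈ N u) →
    ∀ u : Fin (r + 1) → V, U u → 2 * r * θ < (oA R A' (u 0)).card → ∀ (s : S)
    (p : Fin (ar s) → V ⊕ Fin (r + 1)), Min R A' u s p →
    ∃ w ∈ out p, w ∈ N u ∨ θ < Nat.card {u' : Fin (r + 1) → V // U u' ∧ w ∈ N u'}

/-- the properties of the kernels for `A` -/
structure KerP (r L : ℕ) (R : Interp S ar V) (U : (Fin (r + 1) → V) → Prop) (A : Finset V)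
    (N : (Fin (r + 1) → V) → Finset V) : Prop where
  hcard : ∀ u, (N u).card ≤ 2 * r * L
  hout : ∀ u, ∀ z ∈ N u, z ∉ A ∧ U u ∧ u 0 ∉ A
  hinv : ∀ h ∈ GA R A, ∀ u, ∀ z ∈ N u, h z ∈ N (h ∘ u)
  hmin : ∀ u, U u → u 0 ∉ A → ∀ (s : S) (p : Fin (ar s) → V ⊕ Fin (r + 1)), Min R A u s p → ∃ w ∈ out p, w ∈ N u

lemma fix_notMem {R : Interp S ar V} {A : Finset V} {h : Equiv.Perm V} (hh : h ∈ GA R A) {x : V} (hx : x ∉ A) :
    h x ∉ A := by
  intro h1
  have h2 := (mem_GS.1 hh).2 (h x) h1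
  rw [h.injective h2] at h1
  exact hx h1

lemma GA_sub {R : Interp S ar V} {A A' : Finset V} (hA : A ⊆ A') {g : Equiv.Perm V} (hg : g ∈ GA R A') :
    g ∈ GA R A := mem_GS.2 ⟨(mem_GS.1 hg).1, fun a ha => (mem_GS.1 hg).2 a (hA ha)⟩

open Classical in
/-- EA6 over EA5, from the covers of EA3 -/
theorem round_of {r : ℕ} (hLayer : StmtLayer r) (har : ∀ s, ar s ≤ r) (R : Interp S ar V) {A₀ : Finset V}
    {B l q : ℕ} (U : (Fin (r + 1) → V) → Prop)
    (hU : ∀ h ∈ GA R A₀, ∀ u, U u → U (h ∘ u)) (hB : ∀ x, Nat.card {u : Fin (r + 1) → V // U u ∧ u 0 = x} ≤ B)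
    (hcov : ∃ A, A₀ ⊆ A ∧ q * A.card ≤ q * A₀.card + 2 * Fintype.card V ∧ Cov R A U (cL r l)) :
    ∃ (A : Finset V) (E : V → V → Prop), A₀ ⊆ A ∧ q * A.card ≤ q * A₀.card + (r + 3) * Fintype.card V ∧
      (∀ h ∈ GA R A, ∀ x y, E x y → E (h x) (h y)) ∧ (∀ x y, E x y → E y x) ∧
      (∀ x, (Finset.univ.filter (fun y => E x y)).card ≤ cD r l B q) ∧
      ∀ A', A ⊆ A' → ∀ u, U u → cT r l B q < (oA R A' (u 0)).card →
        ∀ (s : S) (p : Fin (ar s) → V ⊕ Fin (r + 1)), Min R A' u s p → ∃ w ∈ out p, E (u 0) w := by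
  obtain ⟨A₁, hA₁, hA₁c, hC⟩ := hcov
  obtain ⟨L, hL⟩ : ∃ L, L = cL r l := ⟨_, rfl⟩
  rw [← hL] at hC
  obtain ⟨θ, hθ⟩ : ∃ θ, θ = 2 * r * L * B * q := ⟨_, rfl⟩
  have hθ' : cθ r l B q = θ := by
    unfold cθ
    rw [hθ, hL]
  have hUA : ∀ A, A₁ ⊆ A → ∀ h ∈ GA R A, ∀ u, (U u ∧ u 0 ∉ A) → (U (h ∘ u) ∧ (h ∘ u) 0 ∉ A) :=
    fun A hA h hh u hu => ⟨hU h (GA_sub (hA₁.trans hA) hh) u hu.1, fix_notMem hh hu.2⟩
  have hker : ∀ A : Finset V, ∃ N : (Fin (r + 1) → V) → Finset V, A₁ ⊆ A → KerP r L R U A N := by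
    intro A
    by_cases hA : A₁ ⊆ A
    · obtain ⟨N, h1, h2, h3, h4⟩ := kernel (L := L) har R (A := A) (fun u => U u ∧ u 0 ∉ A) (hUA A hA)
        (fun h hh u hu => hC A hA h hh u hu.1 hu.2)
      exact ⟨N, fun _ => ⟨h1, h2, h3, fun u hu hu0 => h4 u ⟨hu, hu0⟩⟩⟩
    · exact ⟨fun _ => ∅, fun h => absurd h hA⟩
  choose Nf hNf using hker
  obtain ⟨As, hAs0, hAsS⟩ : ∃ As : ℕ → Finset V, As 0 = A₁ ∧ ∀ i, As (i + 1) = As i ∪ bigN (Nf (As i)) θ :=
    ⟨fun i => Nat.rec A₁ (fun _ A => A ∪ bigN (Nf A) θ) i, rfl, fun _ => rfl⟩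
  have hmono : ∀ i j, i ≤ j → As i ⊆ As j := by
    intro i j hij
    induction j, hij using Nat.le_induction with
    | base => exact subset_rfl
    | succ j _ ih =>
      rw [hAsS]
      exact ih.trans Finset.subset_union_left
  have hA1 : ∀ i, A₁ ⊆ As i := fun i => by
    rw [← hAs0]
    exact hmono 0 i (Nat.zero_le _)
  have hK : ∀ i, KerP r L R U (As i) (Nf (As i)) := fun i => hNf _ (hA1 i)
  have hbig : ∀ i, q * (bigN (Nf (As i)) θ).card ≤ Fintype.card V := by
    intro i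
    have h1 := card_bigN (q := q) (c := 2 * r * L) (Nf (As i)) U hB (hK i).hcard (fun u z hz => ((hK i).hout u z hz).2.1)
    rw [hθ]
    exact h1
  have hcard : ∀ i, q * (As i).card ≤ q * A₁.card + i * Fintype.card V := by
    intro i
    induction i with
    | zero => rw [hAs0, Nat.zero_mul, Nat.add_zero]
    | succ i ih =>
      rw [hAsS]
      calc q * (As i ∪ bigN (Nf (As i)) θ).card ≤ q * ((As i).card + (bigN (Nf (As i)) θ).card) :=
            Nat.mul_le_mul_left _ (Finset.card_union_le _ _)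
        _ = q * (As i).card + q * (bigN (Nf (As i)) θ).card := by ring
        _ ≤ (q * A₁.card + i * Fintype.card V) + Fintype.card V := Nat.add_le_add ih (hbig i)
        _ = _ := by ring
  have hAi : ∀ i, i ≤ r → As i ⊆ As (r + 1) := fun i hi => hmono _ _ (by omega)
  have hBi : ∀ i, i ≤ r → bigN (Nf (As i)) θ ⊆ As (r + 1) := fun i hi =>
    (show bigN (Nf (As i)) θ ⊆ As (i + 1) by rw [hAsS]; exact Finset.subset_union_right).trans
      (hmono _ _ (by omega))
  have hBA : ∀ i, ∀ z ∈ bigN (Nf (As i)) θ, z ∉ As i := by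
    intro i z hz
    have h1 := mem_bigN.1 hz
    have h2 : 0 < Nat.card {u : Fin (r + 1) → V // z ∈ Nf (As i) u} := by omega
    obtain ⟨⟨u, hu⟩⟩ := (Nat.card_pos_iff.1 h2).1
    exact ((hK i).hout u z hu).1
  -- the graph
  let E₁ : V → V → Prop := fun x z => ∃ i, i ≤ r ∧ ∃ u : Fin (r + 1) → V, u 0 = x ∧ z ∈ Nf (As i) u ∧
    z ∉ bigN (Nf (As i)) θ
  obtain ⟨E, hE⟩ : ∃ E : V → V → Prop, ∀ x z, E x z ↔ (E₁ x z ∨ E₁ z x) := ⟨_, fun _ _ => Iff.rfl⟩
  refine ⟨As (r + 1), E, hA₁.trans (hA1 _), ?_, ?_, fun x y h => (hE _ _).2 ((hE _ _).1 h).symm, ?_, ?_⟩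
  · have h1 := hcard (r + 1)
    calc q * (As (r + 1)).card ≤ q * A₁.card + (r + 1) * Fintype.card V := h1
      _ ≤ (q * A₀.card + 2 * Fintype.card V) + (r + 1) * Fintype.card V := Nat.add_le_add_right hA₁c _
      _ = _ := by ring
  · have key : ∀ h ∈ GA R (As (r + 1)), ∀ x y, E₁ x y → E₁ (h x) (h y) := by
      rintro h hh x y ⟨i, hi, u, rfl, h1, h2⟩
      refine ⟨i, hi, h ∘ u, rfl, (hK i).hinv h (GA_sub (hAi i hi) hh) u y h1, fun h3 => h2 ?_⟩
      have h4 := (mem_GS.1 hh).2 (h y) (hBi i hi h3)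
      rw [h.injective h4] at h3
      exact h3
    exact fun h hh x y hxy => (hE _ _).2 (((hE _ _).1 hxy).imp (key h hh x y) (key h hh y x))
  · intro x
    have h1 : ∀ y, (E₁ x y ∨ E₁ y x) → y ∈
        (Finset.range (r + 1)).biUnion (fun i =>
          (Finset.univ.filter (fun u : Fin (r + 1) → V => U u ∧ u 0 = x)).biUnion (fun u => Nf (As i) u) ∪
          if x ∈ bigN (Nf (As i)) θ then ∅ else
            (Finset.univ.filter (fun u : Fin (r + 1) → V => x ∈ Nf (As i) u)).image (fun u => u 0)) := by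
      intro y hy
      rcases hy with ⟨i, hi, u, h2, h3, h4⟩ | ⟨i, hi, u, h2, h3, h4⟩
      · refine Finset.mem_biUnion.2 ⟨i, Finset.mem_range.2 (by omega), Finset.mem_union_left _ ?_⟩
        exact Finset.mem_biUnion.2 ⟨u, Finset.mem_filter.2 ⟨Finset.mem_univ _, ((hK i).hout u y h3).2.1, h2⟩, h3⟩
      · refine Finset.mem_biUnion.2 ⟨i, Finset.mem_range.2 (by omega), Finset.mem_union_right _ ?_⟩
        rw [if_neg h4]
        exact Finset.mem_image.2 ⟨u, Finset.mem_filter.2 ⟨Finset.mem_univ _, h3⟩, h2⟩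
    refine (card_filter_le_of _ _ (fun y hy => h1 y ((hE _ _).1 hy))).trans (Finset.card_biUnion_le.trans ?_)
    have h2 : ∀ i ∈ Finset.range (r + 1), ((Finset.univ.filter (fun u : Fin (r + 1) → V => U u ∧ u 0 = x)).biUnion
        (fun u => Nf (As i) u) ∪ if x ∈ bigN (Nf (As i)) θ then ∅ else
          (Finset.univ.filter (fun u : Fin (r + 1) → V => x ∈ Nf (As i) u)).image (fun u => u 0)).card ≤
        2 * r * L * B + θ := by
      intro i _
      refine (Finset.card_union_le _ _).trans (Nat.add_le_add ?_ ?_)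
      · refine Finset.card_biUnion_le.trans ?_
        calc ∑ u ∈ Finset.univ.filter (fun u : Fin (r + 1) → V => U u ∧ u 0 = x), (Nf (As i) u).card
            ≤ ∑ u ∈ Finset.univ.filter (fun u : Fin (r + 1) → V => U u ∧ u 0 = x), (2 * r * L) :=
              Finset.sum_le_sum (fun u _ => (hK i).hcard u)
          _ = (Finset.univ.filter (fun u : Fin (r + 1) → V => U u ∧ u 0 = x)).card * (2 * r * L) := by
              rw [Finset.sum_const, smul_eq_mul]
          _ ≤ B * (2 * r * L) := by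
              refine Nat.mul_le_mul_right _ (le_trans (le_of_eq ?_) (hB x))
              rw [Nat.card_eq_fintype_card, Fintype.card_subtype]
          _ = _ := by ring
      · split_ifs with h3
        · exact Nat.zero_le _
        · refine Finset.card_image_le.trans ?_
          have h4 : ¬ θ < Nat.card {u : Fin (r + 1) → V // x ∈ Nf (As i) u} := fun h => h3 (mem_bigN.2 h)
          rw [Nat.card_eq_fintype_card, Fintype.card_subtype] at h4
          omega
    refine (Finset.sum_le_sum h2).trans ?_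
    rw [Finset.sum_const, Finset.card_range, smul_eq_mul]
    unfold cD
    rw [hθ', ← hL]
  · intro A' hA' u hu hO s p hp
    have hO1 : 2 * r * θ < (oA R A' (u 0)).card := by
      unfold cT at hO
      rw [hθ'] at hO
      omega
    have hu0 : u 0 ∉ A' := by
      intro h
      have h1 : (oA R A' (u 0)).card ≤ 1 := by
        rw [Finset.card_le_one]
        have h2 : ∀ z ∈ oA R A' (u 0), z = u 0 := by
          intro z hz
          obtain ⟨g, hg, rfl⟩ := mem_orb'.1 hz
          exact (mem_GS.1 hg).2 _ h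
        intro z hz z' hz'
        rw [h2 z hz, h2 z' hz']
      unfold cT at hO
      omega
    by_contra hcon
    push Not at hcon
    have h1 : ∀ i : Fin (r + 1), ∃ w ∈ out p, w ∈ bigN (Nf (As i)) θ := by
      intro i
      have hi : (i : ℕ) ≤ r := by omega
      have hui : u 0 ∉ As i := fun h => hu0 (hA' (hAi i hi h))
      obtain ⟨w, hw, h2⟩ := hLayer S ar har V R θ (As i) A' ((hAi i hi).trans hA') (fun u => U u ∧ u 0 ∉ As i)
        (hUA _ (hA1 _)) (Nf (As i)) (fun u hu s p hp => (hK i).hmin u hu.1 hu.2 s p hp) u ⟨hu, hui⟩ hO1 s p hp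
      refine ⟨w, hw, ?_⟩
      rcases h2 with h2 | h2
      · by_contra h3
        exact hcon w hw ((hE _ _).2 (Or.inl ⟨i, hi, u, rfl, h2, h3⟩))
      · rw [mem_bigN]
        refine h2.trans_le ?_
        exact Nat.card_le_card_of_injective (fun v : {u' : Fin (r + 1) → V // (U u' ∧ u' 0 ∉ As i) ∧ w ∈ Nf (As i) u'} =>
          (⟨v.1, v.2.2⟩ : {u : Fin (r + 1) → V // w ∈ Nf (As i) u}))
          (fun v v' h => Subtype.ext (congrArg (fun z : {u : Fin (r + 1) → V // w ∈ Nf (As i) u} => z.1) h))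
    choose w hw1 hw2 using h1
    have hinj : Function.Injective w := by
      have key : ∀ i j : Fin (r + 1), (i : ℕ) < j → w i ≠ w j := by
        intro i j hij h
        have h3 : w i ∈ As (i + 1) := by
          rw [hAsS]
          exact Finset.mem_union_right _ (hw2 i)
        have h4 := hmono _ _ (show (i : ℕ) + 1 ≤ j by omega) h3
        rw [h] at h4
        exact hBA j _ (hw2 j) h4
      intro i j h
      rcases lt_trichotomy (i : ℕ) (j : ℕ) with h3 | h3 | h3
      · exact absurd h (key i j h3)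
      · exact Fin.ext h3
      · exact absurd h.symm (key j i h3)
    have h2 : (Finset.univ : Finset (Fin (r + 1))).card ≤ (out p).card :=
      Finset.card_le_card_of_injOn w (fun i _ => Finset.mem_coe.2 (hw1 i)) (fun i _ j _ h => hinj h)
    rw [Finset.card_univ, Fintype.card_fin] at h2
    have h3 := (card_out p).trans (har s)
    omega

open Classical in
/-- EA6 -/
theorem round {r : ℕ} (har : ∀ s, ar s ≤ r) (R : Interp S ar V) {A₀ : Finset V} {s B l q : ℕ} (hq : 1 ≤ q)
    (hs : ∀ x, (oA R A₀ x).card ≤ s) (U : (Fin (r + 1) → V) → Prop)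
    (hU : ∀ h ∈ GA R A₀, ∀ u, U u → U (h ∘ u)) (hB : ∀ x, Nat.card {u : Fin (r + 1) → V // U u ∧ u 0 = x} ≤ B)
    (hl : s * B ^ 2 * (r * l + 1) ^ r * q * (q ^ r - 1) ^ l ≤ (q ^ r) ^ l) :
    ∃ (A : Finset V) (E : V → V → Prop), A₀ ⊆ A ∧ q * A.card ≤ q * A₀.card + (r + 3) * Fintype.card V ∧
      (∀ h ∈ GA R A, ∀ x y, E x y → E (h x) (h y)) ∧ (∀ x y, E x y → E y x) ∧
      (∀ x, (Finset.univ.filter (fun y => E x y)).card ≤ cD r l B q) ∧
      ∀ A', A ⊆ A' → ∀ u, U u → cT r l B q < (oA R A' (u 0)).card →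
        ∀ (s : S) (p : Fin (ar s) → V ⊕ Fin (r + 1)), Min R A' u s p → ∃ w ∈ out p, E (u 0) w :=
  round_of (fun _ _ har _ _ R _ _ _ hA U hU _ hN _ hu hO _ _ hp =>
    layer6 har R hA U hU hN hu hO hp) har R U hU hB (exists_cov har R hq hs U hU hB hl)

end Pool.Agent.Helper6.EA
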